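import Mathlib
import Pool.Agent.Helper746.QcMain
import Pool.Agent.Helper514.IoD

set_option autoImplicit false

namespace Pool.Agent.Results.MP_591455_an.DimensionFree

open Set Metric MeasureTheory Filter Topology
open scoped ENNReal

/-- Euclidean `n`-space. -/
abbrev Eucl (n : ℕ) := EuclideanSpace ℝ (Fin n)

/-- `M_f(x, r)`: the supremum of `|f ξ - f x|` over the sphere `|ξ - x| = r`. -/
noncomputable def maxDist {n : ℕ} (f : Eucl n → Eucl n) (x : Eucl n) (r : ℝ) : ℝ≥0∞ :=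
  ⨆ ξ ∈ sphere x r, edist (f ξ) (f x)

/-- `m_f(x, r)`: the infimum of `|f ξ - f x|` over the sphere `|ξ - x| = r`. -/
noncomputable def minDist {n : ℕ} (f : Eucl n → Eucl n) (x : Eucl n) (r : ℝ) : ℝ≥0∞ :=
  ⨅ ξ ∈ sphere x r, edist (f ξ) (f x)

/-- The linear dilatation `k_f(x)`, the upper limit of `M_f(x, δ) / m_f(x, δ)` as `δ` tends to `0+`. -/
noncomputable def linDil {n : ℕ} (f : Eucl n → Eucl n) (x : Eucl n) : ℝ≥0∞ :=
  limsup (fun δ : ℝ => maxDist f x δ / minDist f x δ) (𝓝[>] (0 : ℝ))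

/-- The class `Q_k` of injective `k`-quasiconformal maps of `ℝⁿ` into itself: continuous, injective,
with bounded linear dilatation that is at most `k` almost everywhere. -/
structure IsInjQC {n : ℕ} (k : ℝ) (f : Eucl n → Eucl n) : Prop where
  continuous : Continuous f
  injective : Function.Injective f
  bounded : ∃ H : ℝ≥0∞, H < ⊤ ∧ ∀ x, linDil f x ≤ H
  ae_le : ∀ᵐ x : Eucl n, linDil f x ≤ ENNReal.ofReal k

/-- The distortion coefficient `ε(n, k)`. -/
noncomputable def distortion (n : ℕ) (k : ℝ) : ℝ≥0∞ :=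
  ⨆ (f : Eucl n → Eucl n) (_ : IsInjQC k f) (r : ℝ) (_ : 0 < r), maxDist f 0 r / minDist f 0 r

open Pool.Agent.Helper746.Qc in
theorem rnd_of_linDil {n : ℕ} {f : Eucl n → Eucl n} {x : Eucl n} {K : ℝ} (hK : 0 ≤ K)
    (h : linDil f x < ENNReal.ofReal K) : Rnd K f x := by
  have h1 := Filter.eventually_lt_of_limsup_lt h
  rw [eventually_nhdsWithin_iff, Metric.eventually_nhds_iff] at h1
  obtain ⟨δ, hδ, h2⟩ := h1
  refine ⟨δ, hδ, ?_⟩
  intro ξ ξ' he hp hl
  have h3 := h2 (y := dist ξ x) (by simpa [Real.dist_eq, abs_of_pos hp] using hl) hp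
  by_contra hcon
  push Not at hcon
  have h4 : maxDist f x (dist ξ x) ≤ ENNReal.ofReal K * minDist f x (dist ξ x) := by
    rcases eq_or_ne (minDist f x (dist ξ x)) 0 with h0 | h0
    · rw [h0] at h3
      rcases eq_or_ne (maxDist f x (dist ξ x)) 0 with h5 | h5
      · rw [h5]; exact bot_le
      · rw [ENNReal.div_zero h5] at h3
        exact absurd h3 (not_lt.mpr le_top)
    · have h6 : minDist f x (dist ξ x) ≠ ⊤ := by
        have : minDist f x (dist ξ x) ≤ edist (f ξ) (f x) :=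
          iInf₂_le (f := fun ζ (_ : ζ ∈ sphere x (dist ξ x)) => edist (f ζ) (f x)) ξ (mem_sphere.mpr rfl)
        exact ne_top_of_le_ne_top (edist_ne_top _ _) this
      exact (ENNReal.div_le_iff h0 h6).mp h3.le
  have h5 : edist (f ξ) (f x) ≤ maxDist f x (dist ξ x) :=
    le_iSup₂_of_le (f := fun ζ (_ : ζ ∈ sphere x (dist ξ x)) => edist (f ζ) (f x)) ξ (mem_sphere.mpr rfl) le_rfl
  have h6 : minDist f x (dist ξ x) ≤ edist (f ξ') (f x) :=
    iInf₂_le (f := fun ζ (_ : ζ ∈ sphere x (dist ξ x)) => edist (f ζ) (f x)) ξ' (mem_sphere.mpr he.symm)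
  have h7 : edist (f ξ) (f x) ≤ ENNReal.ofReal K * edist (f ξ') (f x) :=
    h5.trans (h4.trans (mul_le_mul_right h6 _))
  rw [edist_dist, edist_dist, ← ENNReal.ofReal_mul hK,
    ENNReal.ofReal_le_ofReal_iff (mul_nonneg hK dist_nonneg)] at h7
  linarith

theorem isOpenMap_of_injective {n : ℕ} {f : Eucl n → Eucl n} (hc : Continuous f)
    (hi : Function.Injective f) : IsOpenMap f := by
  rw [isOpenMap_iff_nhds_le]
  intro x U hU
  rw [mem_map] at hU
  obtain ⟨r, hr, hrU⟩ := Metric.nhds_basis_closedBall.mem_iff.mp hU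
  have h := Pool.Agent.Helper514.IoD.image_mem_nhds f x r hr hc.continuousOn hi.injOn
  exact Filter.mem_of_superset h (by rintro _ ⟨y, hy, rfl⟩; exact hrU hy)

open Pool.Agent.Helper746.Qc in
theorem qc_scale {n : ℕ} {H K : ℝ} {f : Eucl n → Eucl n} (hf : QC H K f) {r : ℝ} (hr : 0 < r) :
    QC H K (fun x => f (r • x) - f 0) := by
  have hrnd : ∀ (L : ℝ) (x : Eucl n), Rnd L f (r • x) → Rnd L (fun x => f (r • x) - f 0) x := by
    rintro L x ⟨δ, hδ, h⟩
    refine ⟨δ / r, div_pos hδ hr, ?_⟩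
    intro ξ ξ' he hp hl
    have h1 : ∀ ζ : Eucl n, dist (r • ζ) (r • x) = r * dist ζ x := by
      intro ζ
      rw [dist_smul₀, Real.norm_eq_abs, abs_of_pos hr]
    have := h (r • ξ) (r • ξ') (by rw [h1, h1, he]) (by rw [h1]; positivity)
      (by rw [h1]; rw [lt_div_iff₀ hr] at hl; linarith [mul_comm r (dist ξ x)])
    simpa using this
  refine ⟨?_, ?_, ?_, fun x => hrnd H x (hf.rnd _), ?_⟩
  · exact (hf.cont.comp (continuous_const_smul r)).sub continuous_const
  · intro a b hab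
    have : f (r • a) = f (r • b) := by simpa using hab
    exact smul_right_injective _ hr.ne' (hf.inj this)
  · have h1 : IsOpenMap (fun x : Eucl n => r • x) := isOpenMap_smul₀ hr.ne'
    have h2 : IsOpenMap (fun y : Eucl n => y - f 0) := (Homeomorph.subRight (f 0)).isOpenMap
    exact h2.comp (hf.opn.comp h1)
  · have h1 : ∀ᵐ x : Eucl n, Rnd K f (r • x) := by
      have hq : Measure.QuasiMeasurePreserving (fun x : Eucl n => r • x) volume volume := by
        refine ⟨measurable_const_smul r, ?_⟩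
        rw [Measure.map_addHaar_smul volume hr.ne']
        exact Measure.smul_absolutelyContinuous
      exact hq.ae hf.rndae
    filter_upwards [h1] with x hx
    exact hrnd K x hx

/-- **Dimension-free distortion**: `E(k) = sup_{n ≥ 2} ε(n, k)` is finite for every `k ≥ 1`. -/
theorem result : ∀ k : ℝ, 1 ≤ k → (⨆ (n : ℕ) (_ : 2 ≤ n), distortion n k) < ⊤ := by
  intro k hk
  obtain ⟨C, hC⟩ := Pool.Agent.Helper746.Qc.main_real (K := k + 1) (by linarith)
  refine lt_of_le_of_lt ?_ (ENNReal.ofReal_lt_top (r := max C 1))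
  refine iSup₂_le fun n hn => iSup₂_le fun f hf => iSup₂_le fun r hr => ?_
  obtain ⟨H₀, hH₀, hH⟩ := hf.bounded
  set H : ℝ := H₀.toReal + 1 with hHdef
  have hH1 : 1 ≤ H := by simp [hHdef]
  have hQC : Pool.Agent.Helper746.Qc.QC H (k + 1) f := by
    refine ⟨hf.continuous, hf.injective, isOpenMap_of_injective hf.continuous hf.injective, ?_, ?_⟩
    · intro x
      refine rnd_of_linDil (by linarith) (lt_of_le_of_lt (hH x) ?_)
      rw [← ENNReal.ofReal_toReal hH₀.ne]
      exact (ENNReal.ofReal_lt_ofReal_iff (by linarith)).mpr (by simp [hHdef])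
    · filter_upwards [hf.ae_le] with x hx
      refine rnd_of_linDil (by linarith) (lt_of_le_of_lt hx ?_)
      exact (ENNReal.ofReal_lt_ofReal_iff (by linarith)).mpr (by linarith)
  have hS := qc_scale hQC hr
  have key := hC n hn H hH1 _ hS (by simp)
  have hC1 : (1 : ℝ) ≤ max C 1 := le_max_right _ _
  have hle : maxDist f 0 r ≤ ENNReal.ofReal (max C 1) * minDist f 0 r := by
    refine iSup₂_le fun ξ hξ => ?_
    have hc0 : ENNReal.ofReal (max C 1) ≠ 0 := by
      rw [Ne, ENNReal.ofReal_eq_zero]; linarith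
    rw [mul_comm, ← ENNReal.div_le_iff_le_mul (Or.inl hc0) (Or.inl ENNReal.ofReal_ne_top)]
    refine le_iInf₂ fun ξ' hξ' => ?_
    rw [ENNReal.div_le_iff_le_mul (Or.inl hc0) (Or.inl ENNReal.ofReal_ne_top), mul_comm]
    have hnr : ∀ ζ : Eucl n, ζ ∈ sphere (0 : Eucl n) r → ‖r⁻¹ • ζ‖ = 1 := by
      intro ζ hζ
      rw [norm_smul, norm_inv, Real.norm_eq_abs, abs_of_pos hr, mem_sphere_zero_iff_norm.mp hζ]
      exact inv_mul_cancel₀ hr.ne'
    have h1 := key (r⁻¹ • ξ) (r⁻¹ • ξ') (hnr ξ hξ) (hnr ξ' hξ')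
    simp only [smul_inv_smul₀ hr.ne'] at h1
    rw [edist_dist, edist_dist, ← ENNReal.ofReal_mul (by linarith), dist_eq_norm, dist_eq_norm]
    refine ENNReal.ofReal_le_ofReal (h1.trans ?_)
    exact mul_le_mul_of_nonneg_right (le_max_left _ _) (norm_nonneg _)
  exact ENNReal.div_le_of_le_mul hle

end Pool.Agent.Results.MP_591455_an.DimensionFree
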